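import Pool.Agent.N375.LM.Gen
import Mathlib.NumberTheory.EulerProduct.Basic

set_option autoImplicit false

/-! Exponential sums and Dirichlet convolution. -/

namespace Pool.Agent.T9h59.NR

open Finset
open Pool.Agent.Y853.EM (S S_zero S_add_nat muc lic)
open Pool.Agent.N375.LM

/-- the sum over a convolution -/
theorem S_mul (f g : ArithmeticFunction ℂ) (R : ℕ) (x : ℝ) :
    S (fun n => (f * g) n) R x = ∑ d ∈ Icc 1 R, g d * S (fun n => f n) (R / d) (d * x) := by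
  unfold S
  have h1 : ∀ n ∈ Icc 1 R, (f * g) n * Complex.exp (2 * Real.pi * Complex.I * n * x) =
      ∑ p ∈ n.divisorsAntidiagonal, f p.1 * g p.2 *
        Complex.exp (2 * Real.pi * Complex.I * ((p.1 * p.2 : ℕ) : ℂ) * x) := by
    intro n _
    rw [ArithmeticFunction.mul_apply, Finset.sum_mul]
    refine Finset.sum_congr rfl fun p hp => ?_
    rw [(Nat.mem_divisorsAntidiagonal.1 hp).1]
  rw [Finset.sum_congr rfl h1]
  simp only [Finset.mul_sum]
  rw [Finset.sum_sigma', Finset.sum_sigma']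
  refine Finset.sum_bij' (fun p _ => (⟨p.2.2, p.2.1⟩ : (_ : ℕ) × ℕ))
    (fun q _ => (⟨q.1 * q.2, (q.2, q.1)⟩ : (_ : ℕ) × (ℕ × ℕ))) ?_ ?_ ?_ ?_ ?_
  · rintro ⟨n, a, b⟩ h
    simp only [mem_sigma, mem_Icc, Nat.mem_divisorsAntidiagonal] at h ⊢
    obtain ⟨⟨h1, h2⟩, h3, h4⟩ := h
    have hb : 0 < b := Nat.pos_of_ne_zero (by rintro rfl; simp at h3; omega)
    have ha : 0 < a := Nat.pos_of_ne_zero (by rintro rfl; simp at h3; omega)
    refine ⟨⟨hb, ?_⟩, ha, ?_⟩
    · calc b ≤ a * b := Nat.le_mul_of_pos_left b ha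
        _ = n := h3
        _ ≤ R := h2
    · rw [Nat.le_div_iff_mul_le hb]
      omega
  · rintro ⟨b, a⟩ h
    simp only [mem_sigma, mem_Icc, Nat.mem_divisorsAntidiagonal] at h ⊢
    obtain ⟨⟨h1, h2⟩, h3, h4⟩ := h
    rw [Nat.le_div_iff_mul_le (by omega)] at h4
    have hpos : 0 < b * a := Nat.mul_pos (by omega) (by omega)
    refine ⟨⟨hpos, by rw [mul_comm]; exact h4⟩, by rw [mul_comm], hpos.ne'⟩
  · rintro ⟨n, a, b⟩ h
    simp only [mem_sigma, mem_Icc, Nat.mem_divisorsAntidiagonal] at h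
    obtain ⟨⟨h1, h2⟩, h3, h4⟩ := h
    simp only [Sigma.mk.injEq]
    refine ⟨by rw [mul_comm]; exact h3, HEq.rfl⟩
  · rintro ⟨b, a⟩ h
    rfl
  · rintro ⟨n, a, b⟩ h
    simp only
    have h5 : 2 * Real.pi * Complex.I * (((a * b : ℕ) : ℂ)) * x =
        2 * Real.pi * Complex.I * a * ((b * x : ℝ) : ℂ) := by
      push_cast
      ring
    rw [h5]
    ring

/-- weighted sums of the absolute values -/
def NB (g : ℕ → ℂ) (b K : ℝ) : Prop := ∀ N : ℕ, ∑ d ∈ Icc 1 N, ‖g d‖ * (d : ℝ) ^ (-b) ≤ K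

theorem term_le {b : ℝ} (hb : 0 < b) {K : ℝ} (hK : 0 ≤ K) (R d : ℕ) (hd : 1 ≤ d) :
    K * ((R / d : ℕ) : ℝ) ^ b ≤ K * ((d : ℝ) ^ (-b) * (R : ℝ) ^ b) := by
  have hd0 : (0 : ℝ) < d := by exact_mod_cast hd
  have h1 : ((R / d : ℕ) : ℝ) ≤ (R : ℝ) / d := Nat.cast_div_le
  have h2 : ((R / d : ℕ) : ℝ) ^ b ≤ ((R : ℝ) / d) ^ b :=
    Real.rpow_le_rpow (Nat.cast_nonneg _) h1 hb.le
  rw [Real.div_rpow (Nat.cast_nonneg _) hd0.le] at h2
  rw [Real.rpow_neg hd0.le, inv_mul_eq_div]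
  exact mul_le_mul_of_nonneg_left h2 hK

theorem UB_mul {f g : ArithmeticFunction ℂ} {b K : ℝ} (hb : 0 < b) (hg : NB (fun n => g n) b K)
    (h : UB (fun n => f n) b) : UB (fun n => (f * g) n) b := by
  obtain ⟨C, hC0, hC⟩ := UB_nonneg h
  refine ⟨K * C, fun R x => ?_⟩
  rw [S_mul]
  refine (norm_sum_le _ _).trans ?_
  have h1 : ∀ d ∈ Icc 1 R, ‖g d * S (fun n => f n) (R / d) (d * x)‖ ≤
      (‖g d‖ * (d : ℝ) ^ (-b)) * (C * (R : ℝ) ^ b) := by
    intro d hd
    rw [norm_mul]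
    have h2 := (hC (R / d) (d * x)).trans (term_le hb hC0 R d (mem_Icc.1 hd).1)
    calc ‖g d‖ * ‖S (fun n => f n) (R / d) (d * x)‖
        ≤ ‖g d‖ * (C * ((d : ℝ) ^ (-b) * (R : ℝ) ^ b)) :=
          mul_le_mul_of_nonneg_left h2 (norm_nonneg _)
      _ = _ := by ring
  refine (Finset.sum_le_sum h1).trans ?_
  rw [← Finset.sum_mul, mul_assoc]
  exact mul_le_mul_of_nonneg_right (hg R)
    (mul_nonneg hC0 (Real.rpow_nonneg (Nat.cast_nonneg _) _))

/-- the converse, if `g` is close to the identity -/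
theorem UB_of_mul {f g : ArithmeticFunction ℂ} {b κ : ℝ} (hb : 0 < b) (hκ : κ < 1)
    (hg1 : g 1 = 1) (hg : ∀ N : ℕ, ∑ d ∈ Icc 2 N, ‖g d‖ * (d : ℝ) ^ (-b) ≤ κ)
    (h : UB (fun n => (f * g) n) b) : UB (fun n => f n) b := by
  obtain ⟨C, hC0, hC⟩ := UB_nonneg h
  have h1κ : 0 < 1 - κ := by linarith
  refine ⟨C / (1 - κ), fun R => ?_⟩
  have hK0 : 0 ≤ C / (1 - κ) := div_nonneg hC0 h1κ.le
  induction R using Nat.strong_induction_on with
  | _ R ih =>
    intro x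
    rcases Nat.eq_zero_or_pos R with rfl | hR
    · rw [S_zero, norm_zero]
      exact mul_nonneg hK0 (Real.rpow_nonneg (Nat.cast_nonneg _) _)
    have h2 := S_mul f g R x
    have h3 : Icc 1 R = insert 1 (Icc 2 R) := by
      ext d
      simp only [mem_Icc, mem_insert]
      omega
    rw [h3, Finset.sum_insert (by simp), hg1, one_mul, Nat.div_one, Nat.cast_one, one_mul] at h2
    have h4 : S (fun n => f n) R x = S (fun n => (f * g) n) R x -
        ∑ d ∈ Icc 2 R, g d * S (fun n => f n) (R / d) (d * x) := by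
      rw [h2]
      ring
    rw [h4]
    refine (norm_sub_le _ _).trans ?_
    have h5 : ∀ d ∈ Icc 2 R, ‖g d * S (fun n => f n) (R / d) (d * x)‖ ≤
        (‖g d‖ * (d : ℝ) ^ (-b)) * (C / (1 - κ) * (R : ℝ) ^ b) := by
      intro d hd
      rw [mem_Icc] at hd
      rw [norm_mul]
      have h6 := (ih (R / d) (Nat.div_lt_self hR (by omega)) (d * x)).trans
        (term_le hb hK0 R d (by omega))
      calc ‖g d‖ * ‖S (fun n => f n) (R / d) (d * x)‖
          ≤ ‖g d‖ * (C / (1 - κ) * ((d : ℝ) ^ (-b) * (R : ℝ) ^ b)) :=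
            mul_le_mul_of_nonneg_left h6 (norm_nonneg _)
        _ = _ := by ring
    have h7 : ‖∑ d ∈ Icc 2 R, g d * S (fun n => f n) (R / d) (d * x)‖ ≤
        κ * (C / (1 - κ) * (R : ℝ) ^ b) := by
      refine (norm_sum_le _ _).trans ((Finset.sum_le_sum h5).trans ?_)
      rw [← Finset.sum_mul]
      exact mul_le_mul_of_nonneg_right (hg R)
        (mul_nonneg hK0 (Real.rpow_nonneg (Nat.cast_nonneg _) _))
    have h8 : C * (R : ℝ) ^ b + κ * (C / (1 - κ) * (R : ℝ) ^ b) = C / (1 - κ) * (R : ℝ) ^ b := by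
      field_simp
      ring
    calc _ ≤ C * (R : ℝ) ^ b + κ * (C / (1 - κ) * (R : ℝ) ^ b) := add_le_add (hC R x) h7
      _ = _ := h8

/-! ### the coefficients prime to `P` -/

/-- the part of an arithmetic function prime to `P` -/
noncomputable def cP (P : ℕ) (f : ArithmeticFunction ℂ) : ArithmeticFunction ℂ :=
  ⟨fun n => if n.Coprime P then f n else 0, by simp⟩

theorem cP_apply (P : ℕ) (f : ArithmeticFunction ℂ) (n : ℕ) :
    cP P f n = if n.Coprime P then f n else 0 := rfl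

theorem cP_cop (P : ℕ) (f : ArithmeticFunction ℂ) : (fun n => cP P f n) = cop P (fun n => f n) := rfl

theorem cP_mul (P : ℕ) (f g : ArithmeticFunction ℂ) : cP P (f * g) = cP P f * cP P g := by
  ext n
  rw [cP_apply, ArithmeticFunction.mul_apply, ArithmeticFunction.mul_apply]
  by_cases h : n.Coprime P
  · rw [if_pos h]
    refine Finset.sum_congr rfl fun p hp => ?_
    have h1 := (Nat.mem_divisorsAntidiagonal.1 hp).1
    have h2 : (p.1 * p.2).Coprime P := by rw [h1]; exact h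
    rw [cP_apply, cP_apply, if_pos (Nat.Coprime.coprime_mul_right h2),
      if_pos (Nat.Coprime.coprime_mul_left h2)]
  · rw [if_neg h]
    symm
    refine Finset.sum_eq_zero fun p hp => ?_
    have h1 := (Nat.mem_divisorsAntidiagonal.1 hp).1
    rw [cP_apply, cP_apply]
    by_cases h2 : p.1.Coprime P
    · by_cases h3 : p.2.Coprime P
      · exact absurd (h1 ▸ Nat.Coprime.mul_left h2 h3) h
      · rw [if_neg h3, mul_zero]
    · rw [if_neg h2, zero_mul]

theorem cP_one (P : ℕ) (f : ArithmeticFunction ℂ) : cP P f 1 = f 1 := by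
  rw [cP_apply, if_pos (Nat.coprime_one_left P)]

/-! ### twists by `n^(it)` -/

theorem sum_rpow_le {b : ℝ} (hb : 0 < b) (R : ℕ) :
    ∑ n ∈ Icc 1 R, (n : ℝ) ^ (b - 1) ≤ (1 + 1 / b) * (R : ℝ) ^ b := by
  rcases le_or_gt 1 b with h1 | h1
  · have h2 : ∀ n ∈ Icc 1 R, (n : ℝ) ^ (b - 1) ≤ (R : ℝ) ^ (b - 1) := by
      intro n hn
      rw [mem_Icc] at hn
      exact Real.rpow_le_rpow (Nat.cast_nonneg _) (by exact_mod_cast hn.2) (by linarith)
    refine (Finset.sum_le_sum h2).trans ?_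
    rw [Finset.sum_const, Nat.card_Icc, Nat.add_sub_cancel, nsmul_eq_mul]
    rcases Nat.eq_zero_or_pos R with rfl | hR
    · simp [Real.zero_rpow hb.ne']
    have hR0 : (0 : ℝ) < R := by exact_mod_cast hR
    have h3 : (R : ℝ) * (R : ℝ) ^ (b - 1) = (R : ℝ) ^ b := by
      rw [Real.rpow_sub_one hR0.ne']
      field_simp
    rw [h3]
    have h4 : 0 ≤ 1 / b * (R : ℝ) ^ b := by positivity
    linarith
  · -- `b (n)^(b-1) ≤ n^b - (n-1)^b`
    have h2 : ∀ n : ℕ, 1 ≤ n → (n : ℝ) ^ (b - 1) ≤ 1 / b * ((n : ℝ) ^ b - ((n : ℝ) - 1) ^ b) := by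
      intro n hn
      have hn0 : (0 : ℝ) < n := by exact_mod_cast hn
      have hn1 : (1 : ℝ) ≤ n := by exact_mod_cast hn
      have h3 : (1 + (-1 / (n : ℝ))) ^ b ≤ 1 + b * (-1 / (n : ℝ)) := by
        apply rpow_one_add_le_one_add_mul_self _ hb.le h1.le
        rw [neg_div, neg_le_neg_iff, div_le_one hn0]
        exact hn1
      have h4 : (n : ℝ) - 1 = n * (1 + (-1 / (n : ℝ))) := by
        field_simp
        ring
      have h5 : (0 : ℝ) ≤ 1 + (-1 / (n : ℝ)) := by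
        have : 1 / (n : ℝ) ≤ 1 := by rw [div_le_one hn0]; exact hn1
        have h6 : (-1 : ℝ) / n = -(1 / n) := by ring
        rw [h6]
        linarith
      rw [h4, Real.mul_rpow hn0.le h5, Real.rpow_sub_one hn0.ne']
      have h6 : 0 < (n : ℝ) ^ b := Real.rpow_pos_of_pos hn0 b
      have h7 : (n : ℝ) ^ b * (1 + -1 / (n : ℝ)) ^ b ≤ (n : ℝ) ^ b * (1 + b * (-1 / n)) :=
        mul_le_mul_of_nonneg_left h3 h6.le
      have h8 : 1 / b * ((n : ℝ) ^ b - (n : ℝ) ^ b * (1 + b * (-1 / n))) = (n : ℝ) ^ b / n := by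
        field_simp
        ring
      rw [← h8]
      apply mul_le_mul_of_nonneg_left _ (by positivity)
      linarith
    have h3 : ∑ n ∈ Icc 1 R, (n : ℝ) ^ (b - 1) ≤ 1 / b * (R : ℝ) ^ b := by
      induction R with
      | zero => simp [Real.zero_rpow hb.ne']
      | succ R ih =>
        rw [Finset.sum_Icc_succ_top (by omega)]
        have h4 := h2 (R + 1) (by omega)
        have h5 : (((R + 1 : ℕ) : ℝ) - 1) = R := by push_cast; ring
        rw [h5] at h4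
        calc _ ≤ 1 / b * (R : ℝ) ^ b + 1 / b * (((R + 1 : ℕ) : ℝ) ^ b - (R : ℝ) ^ b) :=
              add_le_add ih h4
          _ = _ := by ring
    have h4 : 0 ≤ (R : ℝ) ^ b := by positivity
    calc _ ≤ 1 / b * (R : ℝ) ^ b := h3
      _ ≤ _ := by
        apply mul_le_mul_of_nonneg_right _ h4
        linarith

theorem S_succ' (c : ℕ → ℂ) (R : ℕ) (x : ℝ) :
    S c (R + 1) x = S c R x + c (R + 1) * Complex.exp (2 * Real.pi * Complex.I * (R + 1 : ℕ) * x) := by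
  unfold S
  rw [Finset.sum_Icc_succ_top (by omega)]

/-- partial summation -/
theorem UB_slow {c : ℕ → ℂ} {b : ℝ} (hb : 0 < b) (v : ℕ → ℂ) (A : ℝ) (hA : 0 ≤ A)
    (hv : ∀ n, ‖v n‖ ≤ 1)
    (hv2 : ∀ n : ℕ, 1 ≤ n → ‖v (n + 1) - v n‖ ≤ A / n) (h : UB c b) :
    UB (fun n => v n * c n) b := by
  obtain ⟨C, hC0, hC⟩ := UB_nonneg h
  have h1 : ∀ (R : ℕ) (x : ℝ), S (fun n => v n * c n) R x = v (R + 1) * S c R x -
      ∑ n ∈ Icc 1 R, (v (n + 1) - v n) * S c n x := by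
    intro R x
    induction R with
    | zero => simp [S_zero]
    | succ R ih =>
      rw [S_succ', ih, Finset.sum_Icc_succ_top (by omega), S_succ' c R x]
      ring
  refine ⟨C + A * C * (1 + 1 / b), fun R x => ?_⟩
  rw [h1]
  refine (norm_sub_le _ _).trans ?_
  have h2 : ‖v (R + 1) * S c R x‖ ≤ C * (R : ℝ) ^ b := by
    rw [norm_mul]
    calc ‖v (R + 1)‖ * ‖S c R x‖ ≤ 1 * ‖S c R x‖ :=
          mul_le_mul_of_nonneg_right (hv _) (norm_nonneg _)
      _ = ‖S c R x‖ := one_mul _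
      _ ≤ _ := hC R x
  have h3 : ∀ n ∈ Icc 1 R, ‖(v (n + 1) - v n) * S c n x‖ ≤ A * C * (n : ℝ) ^ (b - 1) := by
    intro n hn
    rw [mem_Icc] at hn
    have hn0 : (0 : ℝ) < n := by exact_mod_cast hn.1
    rw [norm_mul, Real.rpow_sub_one hn0.ne']
    calc ‖v (n + 1) - v n‖ * ‖S c n x‖ ≤ (A / n) * (C * (n : ℝ) ^ b) :=
          mul_le_mul (hv2 n hn.1) (hC n x) (norm_nonneg _) (by positivity)
      _ = _ := by ring
  have h4 : ‖∑ n ∈ Icc 1 R, (v (n + 1) - v n) * S c n x‖ ≤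
      A * C * (1 + 1 / b) * (R : ℝ) ^ b := by
    refine (norm_sum_le _ _).trans ((Finset.sum_le_sum h3).trans ?_)
    rw [← Finset.mul_sum, mul_assoc (A * C)]
    exact mul_le_mul_of_nonneg_left (sum_rpow_le hb R) (by positivity)
  calc _ ≤ C * (R : ℝ) ^ b + A * C * (1 + 1 / b) * (R : ℝ) ^ b := add_le_add h2 h4
    _ = _ := by ring

end Pool.Agent.T9h59.NR
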