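import Pool.Agent.T9h59.NR.Near

set_option autoImplicit false

/-! Weights, arcs, criteria. -/

namespace Pool.Agent.T9h59.NR

open Finset Filter Topology
open Pool.Agent.Y853.EM (S S_zero S_add_nat muc lic)
open Pool.Agent.N375.LM

/-- the defect at `p ^ k` -/
noncomputable def defect (T f : ℕ → ℂ) (p k : ℕ) : ℂ := ∑ j ∈ range (k + 1), f (p ^ j) * T p ^ (k - j)

/-- the summability condition -/
def Near (T f : ℕ → ℂ) (b : ℝ) (y : ℕ) : Prop := Summable fun q : ℕ × ℕ =>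
  if q.1.Prime ∧ y < q.1 then ‖defect T f q.1 (q.2 + 1)‖ * ((q.1 : ℝ) ^ (q.2 + 1)) ^ (-b) else 0

theorem defect_eq {m : ℕ} (χ : DirichletCharacter ℂ m) (t : ℝ) (f : ArithmeticFunction ℂ)
    {p : ℕ} (hp : p.Prime) (k : ℕ) : (f * tw χ t) (p ^ k) = defect (fun n => tw χ t n) (fun n => f n) p k := by
  rw [ArithmeticFunction.mul_apply, Nat.sum_divisorsAntidiagonal (f := fun a b => f a * tw χ t b),
    Nat.sum_divisors_prime_pow hp]
  unfold defect
  refine Finset.sum_congr rfl fun j hj => ?_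
  rw [mem_range] at hj
  rw [Nat.pow_div (by omega) hp.pos, tw_pow]

theorem near_pp {m : ℕ} (χ : DirichletCharacter ℂ m) (t : ℝ) (f : ArithmeticFunction ℂ) (b : ℝ)
    (y : ℕ) : Near (fun n => tw χ t n) (fun n => f n) b y ↔ Summable (pp (f * tw χ t) b y) := by
  unfold Near
  apply summable_congr
  rintro ⟨p, k⟩
  unfold pp
  by_cases h : p.Prime ∧ y < p
  · simp only [if_pos h]
    rw [defect_eq χ t f h.1]
  · simp only [if_neg h]

/-- the twist, as a function -/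
noncomputable def tf {m : ℕ} (χ : DirichletCharacter ℂ m) (t : ℝ) (n : ℕ) : ℂ :=
  χ (n : ZMod m) * (n : ℂ) ^ ((t : ℂ) * Complex.I)

theorem near_tf {m : ℕ} (χ : DirichletCharacter ℂ m) (t : ℝ) (f : ℕ → ℂ) (b : ℝ)
    (y : ℕ) : Near (tf χ t) f b y ↔ Near (fun n => tw χ t n) f b y := by
  unfold Near
  apply summable_congr
  rintro ⟨p, k⟩
  by_cases h : p.Prime ∧ y < p
  · simp only [if_pos h]
    unfold defect
    beta_reduce
    rw [tw_apply χ t h.1.ne_zero]
    rfl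
  · simp only [if_neg h]

theorem UB_w_iff {P : ℕ} (hP : 0 < P) {w : ZMod P → ℂ} (hw : UnitWeight P w) {m : ℕ} (hm0 : 0 < m)
    (χ : DirichletCharacter ℂ m) (t : ℝ) {f : ArithmeticFunction ℂ} (hf : f.IsMultiplicative)
    {b : ℝ} (hb : 0 < b) (y : ℕ) (hs : Near (tf χ t) (fun n => f n) b y)
    (h : UB (fun n => w (n : ZMod P) * f n) b) : UB muc b := by
  rw [near_tf, near_pp] at hs
  rw [← UB_wt hP hw] at h
  have h1 : UB (fun n => cP P f n) b := h
  refine UB_mu_of_near hm0 χ t (cP_isMult hf P) hb (max y P) ?_ h1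
  refine Summable.of_nonneg_of_le (pp_nonneg _ _ _) (fun q => ?_) hs
  obtain ⟨p, k⟩ := q
  unfold pp
  by_cases h2 : p.Prime ∧ max y P < p
  · have h3 : p.Prime ∧ y < p := ⟨h2.1, lt_of_le_of_lt (le_max_left _ _) h2.2⟩
    have h4 : p.Coprime P := by
      rw [Nat.Prime.coprime_iff_not_dvd h2.1]
      intro hd
      exact absurd (Nat.le_of_dvd hP hd) (not_le.2 (lt_of_le_of_lt (le_max_right _ _) h2.2))
    rw [if_pos h2, if_pos h3]
    simp only
    have h5 : (cP P f * tw χ t) (p ^ (k + 1)) = (f * tw χ t) (p ^ (k + 1)) := by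
      rw [defect_eq χ t _ h2.1, defect_eq χ t _ h2.1]
      unfold defect
      refine Finset.sum_congr rfl fun j _ => ?_
      beta_reduce
      rw [cP_apply, if_pos (Nat.Coprime.pow_left j h4)]
    rw [h5]
  · rw [if_neg h2]
    exact pp_nonneg _ _ _ _

theorem UB_w_of {P : ℕ} (hP : 0 < P) (w : ZMod P → ℂ) {m : ℕ} (hm0 : 0 < m)
    (χ : DirichletCharacter ℂ m) (t : ℝ) {f : ArithmeticFunction ℂ} (hf : f.IsMultiplicative)
    {b : ℝ} (hb : 0 < b) (hs : Near (tf χ t) (fun n => f n) b 0)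
    (h : UB muc b) : UB (fun n => w (n : ZMod P) * f n) b := by
  have : NeZero P := ⟨hP.ne'⟩
  rw [near_tf, near_pp] at hs
  exact S_weight w _ (UB_of_near hm0 χ t hf hb hs h)

theorem near_mono {T f : ℕ → ℂ} {b : ℝ} {y z : ℕ} (hyz : y ≤ z) (h : Near T f b y) :
    Near T f b z := by
  refine Summable.of_nonneg_of_le (fun q => ?_) (fun q => ?_) h
  · split_ifs
    · positivity
    · exact le_rfl
  · by_cases h1 : q.1.Prime ∧ z < q.1
    · rw [if_pos h1, if_pos ⟨h1.1, lt_of_le_of_lt hyz h1.2⟩]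
    · rw [if_neg h1]
      split_ifs
      · positivity
      · exact le_rfl

theorem UB_one_weight {f : ℕ → ℂ} {b : ℝ} :
    UB (fun n => (fun _ : ZMod 1 => (1 : ℂ)) (n : ZMod 1) * f n) b ↔ UB f b := by
  simp only [one_mul]

theorem unit_one : UnitWeight 1 (fun _ => (1 : ℂ)) := by
  intro u
  refine ⟨fun _ => ?_, fun _ => one_ne_zero⟩
  have : u = 1 := Subsingleton.elim _ _
  rw [this]
  exact isUnit_one

/-! ### lower bounds without a bound for the coefficients -/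

theorem freq_of_not' {c : ℕ → ℂ} {α β : ℝ} (h : ¬ AB c α β (1 / 2))
    (C : ℝ) : ∃ᶠ R : ℕ in atTop, ∃ x ∈ Set.Icc α β, C * Real.sqrt R < ‖S c R x‖ := by
  intro h1
  apply h
  obtain ⟨R₀, hR₀⟩ := eventually_atTop.1 h1
  set A := ∑ n ∈ Icc 1 R₀, ‖c n‖ with hA
  have hA0 : 0 ≤ A := Finset.sum_nonneg fun _ _ => norm_nonneg _
  refine ⟨|C| + A, fun R x hx => ?_⟩
  rw [← Real.sqrt_eq_rpow]
  have hs : 0 ≤ Real.sqrt R := Real.sqrt_nonneg _
  by_cases hR : R₀ ≤ R
  · have h2 := hR₀ R hR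
    have h3 : ‖S c R x‖ ≤ C * Real.sqrt R := by
      by_contra h4
      exact h2 ⟨x, hx, not_le.1 h4⟩
    have h4 : C ≤ |C| + A := by
      have := le_abs_self C
      linarith
    exact h3.trans (mul_le_mul_of_nonneg_right h4 hs)
  · rcases Nat.eq_zero_or_pos R with rfl | hR1
    · rw [S_zero, norm_zero]
      positivity
    · have h3 : (1 : ℝ) ≤ Real.sqrt R := by
        rw [Real.one_le_sqrt]
        exact_mod_cast hR1
      have h5 : ‖S c R x‖ ≤ A := by
        unfold S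
        refine (norm_sum_le _ _).trans ?_
        have h6 : ∀ n ∈ Icc 1 R, ‖c n * Complex.exp (2 * Real.pi * Complex.I * n * x)‖ = ‖c n‖ := by
          intro n _
          rw [norm_mul, show (2 * Real.pi * Complex.I * n * x : ℂ) =
            ((2 * Real.pi * n * x : ℝ) : ℂ) * Complex.I by push_cast; ring,
            Complex.norm_exp_ofReal_mul_I, mul_one]
        rw [Finset.sum_congr rfl h6]
        exact Finset.sum_le_sum_of_subset_of_nonneg (Finset.Icc_subset_Icc_right (by omega))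
          fun _ _ _ => norm_nonneg _
      have h6 : A ≤ (|C| + A) * 1 := by
        have := abs_nonneg C
        linarith
      exact h5.trans (h6.trans (mul_le_mul_of_nonneg_left h3 (by positivity)))

theorem omega_near {P : ℕ} (hP : 0 < P) {w : ZMod P → ℂ} (hw : UnitWeight P w) {m : ℕ} (hm0 : 0 < m)
    (χ : DirichletCharacter ℂ m) (t : ℝ) {f : ArithmeticFunction ℂ} (hf : f.IsMultiplicative)
    (y : ℕ) (hs : Near (tf χ t) (fun n => f n) (1 / 2) y) {α β : ℝ}
    (hαβ : (P.totient : ℝ) ≤ P * (β - α)) (C : ℝ) :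
    ∃ᶠ R : ℕ in atTop, ∃ x ∈ Set.Icc α β, C * Real.sqrt R < ‖S (fun n => w (n : ZMod P) * f n) R x‖ := by
  refine freq_of_not' ?_ C
  rw [AB_iff hP hw _ _ hαβ]
  intro h
  exact not_UB (UB_w_iff hP hw hm0 χ t hf (by norm_num) y hs h)

/-! ### criteria -/

theorem geom_pow {b : ℝ} (hb : 0 < b) {p : ℕ} (hp : 2 ≤ p) :
    Summable (fun k : ℕ => ((p : ℝ) ^ (k + 1)) ^ (-b)) ∧
      ∑' k : ℕ, ((p : ℝ) ^ (k + 1)) ^ (-b) ≤ (1 - (2 : ℝ) ^ (-b))⁻¹ * (p : ℝ) ^ (-b) := by
  have hp0 : (0 : ℝ) < p := by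
    have : 0 < p := by omega
    exact_mod_cast this
  have hp2 : (2 : ℝ) ≤ p := by exact_mod_cast hp
  have h1 : ∀ k : ℕ, ((p : ℝ) ^ (k + 1)) ^ (-b) = (p : ℝ) ^ (-b) * ((p : ℝ) ^ (-b)) ^ k := by
    intro k
    rw [← Real.rpow_natCast, ← Real.rpow_mul hp0.le, ← Real.rpow_natCast, ← Real.rpow_mul hp0.le,
      ← Real.rpow_add hp0]
    congr 1
    push_cast
    ring
  have h2 : (p : ℝ) ^ (-b) ≤ (2 : ℝ) ^ (-b) :=
    Real.rpow_le_rpow_of_nonpos (by norm_num) hp2 (by linarith)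
  have h3 : (2 : ℝ) ^ (-b) < 1 := Real.rpow_lt_one_of_one_lt_of_neg (by norm_num) (by linarith)
  have h4 : 0 ≤ (p : ℝ) ^ (-b) := by positivity
  have h5 : (p : ℝ) ^ (-b) < 1 := lt_of_le_of_lt h2 h3
  simp only [h1]
  refine ⟨(summable_geometric_of_lt_one h4 h5).mul_left _, ?_⟩
  rw [tsum_mul_left, tsum_geometric_of_lt_one h4 h5, mul_comm]
  apply mul_le_mul_of_nonneg_right _ h4
  apply inv_anti₀ (by linarith)
  linarith

/-- a criterion: `‖defect‖ ≤ e p` at all powers of `p` -/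
theorem near_of_le {T f : ℕ → ℂ} {b : ℝ} (hb : 0 < b) (e : ℕ → ℝ)
    (he : ∀ p : ℕ, p.Prime → ∀ k : ℕ, ‖defect T f p (k + 1)‖ ≤ e p)
    (hs : Summable fun p : ℕ => if p.Prime then e p * (p : ℝ) ^ (-b) else 0) : Near T f b 0 := by
  have hnn : ∀ q : ℕ × ℕ, 0 ≤ (if q.1.Prime ∧ 0 < q.1 then
      ‖defect T f q.1 (q.2 + 1)‖ * ((q.1 : ℝ) ^ (q.2 + 1)) ^ (-b) else 0) := by
    intro q
    split_ifs
    · positivity
    · exact le_rfl
  have hrow : ∀ p : ℕ, p.Prime → ∀ k : ℕ, (if p.Prime ∧ 0 < p then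
      ‖defect T f p (k + 1)‖ * ((p : ℝ) ^ (k + 1)) ^ (-b) else 0) ≤
        e p * ((p : ℝ) ^ (k + 1)) ^ (-b) := by
    intro p hp k
    rw [if_pos ⟨hp, hp.pos⟩]
    exact mul_le_mul_of_nonneg_right (he p hp k) (by positivity)
  unfold Near
  rw [summable_prod_of_nonneg hnn]
  have hsum : ∀ p : ℕ, Summable fun k : ℕ => (if p.Prime ∧ 0 < p then
      ‖defect T f p (k + 1)‖ * ((p : ℝ) ^ (k + 1)) ^ (-b) else 0) := by
    intro p
    by_cases hp : p.Prime
    · exact Summable.of_nonneg_of_le (fun k => hnn (p, k)) (hrow p hp)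
        ((geom_pow hb hp.two_le).1.mul_left _)
    · refine summable_zero.congr fun k => ?_
      rw [if_neg (fun h => hp h.1)]
  refine ⟨hsum, ?_⟩
  refine Summable.of_nonneg_of_le (fun p => tsum_nonneg fun k => hnn (p, k)) (fun p => ?_)
    (hs.mul_left (1 - (2 : ℝ) ^ (-b))⁻¹)
  by_cases hp : p.Prime
  · rw [if_pos hp]
    refine ((hsum p).tsum_le_tsum (hrow p hp) ((geom_pow hb hp.two_le).1.mul_left _)).trans ?_
    rw [tsum_mul_left]
    have h1 := (geom_pow hb hp.two_le).2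
    have h2 : 0 ≤ e p := (norm_nonneg _).trans (he p hp 0)
    calc _ ≤ e p * ((1 - (2 : ℝ) ^ (-b))⁻¹ * (p : ℝ) ^ (-b)) := mul_le_mul_of_nonneg_left h1 h2
      _ = _ := by ring
  · rw [if_neg hp, mul_zero]
    refine le_of_eq ?_
    have h1 : ∀ k : ℕ, (if p.Prime ∧ 0 < p then
      ‖defect T f p (k + 1)‖ * ((p : ℝ) ^ (k + 1)) ^ (-b) else 0) = 0 := fun k => by
      rw [if_neg (fun h => hp h.1)]
    simp only [h1, tsum_zero]

theorem defect_sqf {T f : ℕ → ℂ} (hf1 : f 1 = 1) (hf : ∀ n, ¬ Squarefree n → f n = 0) {p : ℕ}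
    (hp : p.Prime) (k : ℕ) : defect T f p (k + 1) = T p ^ k * (T p + f p) := by
  unfold defect
  rw [Finset.sum_range_succ', Finset.sum_range_succ']
  have h1 : ∑ j ∈ range k, f (p ^ (j + 1 + 1)) * T p ^ (k + 1 - (j + 1 + 1)) = 0 := by
    refine Finset.sum_eq_zero fun j _ => ?_
    rw [hf, zero_mul]
    intro h
    have h2 := h.squarefree_of_dvd (pow_dvd_pow p (show 2 ≤ j + 1 + 1 by omega))
    rw [pow_two] at h2
    exact hp.not_isUnit (h2 p dvd_rfl)
  rw [h1, zero_add, pow_one, pow_zero, hf1]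
  simp only [zero_add, Nat.sub_zero, Nat.add_sub_cancel]
  ring

theorem tf_norm_le {m : ℕ} (χ : DirichletCharacter ℂ m) (t : ℝ) {n : ℕ} (hn : n ≠ 0) :
    ‖tf χ t n‖ ≤ 1 := by
  unfold tf
  rw [norm_mul, norm_cpow_it n hn t, mul_one]
  exact χ.norm_le_one _

/-- squarefree support -/
theorem near_sqf {m : ℕ} (χ : DirichletCharacter ℂ m) (t : ℝ) {f : ℕ → ℂ} (hf1 : f 1 = 1)
    (hf : ∀ n, ¬ Squarefree n → f n = 0) {b : ℝ} (hb : 0 < b)
    (hs : Summable fun p : ℕ => if p.Prime then ‖f p + tf χ t p‖ * (p : ℝ) ^ (-b) else 0) :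
    Near (tf χ t) f b 0 := by
  refine near_of_le hb (fun p => ‖f p + tf χ t p‖) (fun p hp k => ?_) hs
  rw [defect_sqf hf1 hf hp, norm_mul, norm_pow, add_comm]
  calc _ ≤ 1 ^ k * ‖f p + tf χ t p‖ :=
        mul_le_mul_of_nonneg_right (pow_le_pow_left₀ (norm_nonneg _) (tf_norm_le χ t hp.ne_zero) k)
          (norm_nonneg _)
    _ = _ := by rw [one_pow, one_mul]

theorem summable_primes {b : ℝ} (hb : 1 < b) (A : ℝ) :
    Summable fun p : ℕ => if p.Prime then A * (p : ℝ) ^ (-b) else 0 := by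
  have h1 : Summable fun p : ℕ => |A| * (p : ℝ) ^ (-b) :=
    (Real.summable_nat_rpow.2 (by linarith)).mul_left _
  refine Summable.of_norm_bounded h1 fun p => ?_
  split_ifs
  · rw [norm_mul, Real.norm_eq_abs, Real.norm_of_nonneg (by positivity)]
  · rw [norm_zero]; positivity

/-- `μ(n) χ(n) n^(it) g(n)` with `g(p)` close to `1` -/
theorem near_g {m : ℕ} (χ : DirichletCharacter ℂ m) (t : ℝ) {g : ℕ → ℂ} (hg1 : g 1 = 1)
    {A δ b : ℝ} (hg : ∀ p : ℕ, p.Prime → ‖g p - 1‖ ≤ A * (p : ℝ) ^ (-δ)) (hb : 0 < b)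
    (hbδ : 1 < b + δ) : Near (tf χ t) (fun n => muc n * tf χ t n * g n) b 0 := by
  refine near_sqf χ t ?_ (fun n hn => ?_) hb ?_
  · simp [muc, tf, hg1]
  · have : muc n = 0 := by
      unfold muc
      rw [ArithmeticFunction.moebius_eq_zero_of_not_squarefree hn, Int.cast_zero]
    rw [this]
    ring
  · refine Summable.of_nonneg_of_le (fun p => ?_) (fun p => ?_) (summable_primes hbδ A)
    · split_ifs
      · positivity
      · exact le_rfl
    · by_cases hp : p.Prime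
      · rw [if_pos hp, if_pos hp]
        have h1 : muc p = -1 := by
          unfold muc
          rw [ArithmeticFunction.moebius_apply_prime hp]
          norm_num
        have h2 : muc p * tf χ t p * g p + tf χ t p = - (tf χ t p * (g p - 1)) := by
          rw [h1]; ring
        have hp0 : (0 : ℝ) < p := by exact_mod_cast hp.pos
        rw [h2, norm_neg, norm_mul]
        have h3 : ‖tf χ t p‖ * ‖g p - 1‖ ≤ 1 * (A * (p : ℝ) ^ (-δ)) :=
          mul_le_mul (tf_norm_le χ t hp.ne_zero) (hg p hp) (norm_nonneg _) zero_le_one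
        calc _ ≤ 1 * (A * (p : ℝ) ^ (-δ)) * (p : ℝ) ^ (-b) :=
              mul_le_mul_of_nonneg_right h3 (by positivity)
          _ = A * ((p : ℝ) ^ (-δ) * (p : ℝ) ^ (-b)) := by ring
          _ = _ := by
              rw [← Real.rpow_add hp0]
              congr 2
              ring
      · rw [if_neg hp, if_neg hp]

/-- the Liouville function -/
theorem near_li {b : ℝ} (hb : 1 / 2 < b) : Near (fun _ => 1) lic b 0 := by
  have hnn : ∀ q : ℕ × ℕ, 0 ≤ (if q.1.Prime ∧ 0 < q.1 then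
      ‖defect (fun _ => 1) lic q.1 (q.2 + 1)‖ * ((q.1 : ℝ) ^ (q.2 + 1)) ^ (-b) else 0) := by
    intro q
    split_ifs
    · positivity
    · exact le_rfl
  have hli : ∀ p : ℕ, p.Prime → ∀ j : ℕ, lic (p ^ j) = (-1) ^ j := by
    intro p hp j
    unfold lic
    rw [ArithmeticFunction.liouville_apply (pow_ne_zero _ hp.ne_zero),
      ArithmeticFunction.cardFactors_apply_prime_pow hp]
    push_cast
    ring
  have hdef : ∀ p : ℕ, p.Prime → ∀ k : ℕ, ‖defect (fun _ => 1) lic p k‖ = if Even k then 1 else 0 := by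
    intro p hp k
    unfold defect
    have h1 : ∑ j ∈ range (k + 1), lic (p ^ j) * (1 : ℂ) ^ (k - j) =
        ∑ j ∈ range (k + 1), (-1 : ℂ) ^ j := by
      refine Finset.sum_congr rfl fun j _ => ?_
      rw [hli p hp, one_pow, mul_one]
    rw [h1, neg_one_geom_sum]
    by_cases h : Even k
    · rw [if_pos h, if_neg (by simpa [Nat.even_add_one] using h), norm_one]
    · rw [if_neg h, if_pos (by simpa [Nat.even_add_one] using h), norm_zero]
  have hb0 : 0 < b := by linarith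
  have hrow : ∀ p : ℕ, p.Prime → ∀ k : ℕ, (if p.Prime ∧ 0 < p then
      ‖defect (fun _ => 1) lic p (k + 1)‖ * ((p : ℝ) ^ (k + 1)) ^ (-b) else 0) ≤
        (p : ℝ) ^ (-b) * ((p : ℝ) ^ k) ^ (-b) * (if k = 0 then 0 else 1) := by
    intro p hp k
    have hp0 : (0 : ℝ) < p := by exact_mod_cast hp.pos
    rw [if_pos ⟨hp, hp.pos⟩, hdef p hp]
    by_cases hk : k = 0
    · subst hk
      simp
    · rw [if_neg hk, mul_one, pow_succ, Real.mul_rpow (by positivity) hp0.le, mul_comm ((p : ℝ) ^ (-b))]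
      calc _ ≤ 1 * (((p : ℝ) ^ k) ^ (-b) * (p : ℝ) ^ (-b)) := by
            apply mul_le_mul_of_nonneg_right _ (by positivity)
            split_ifs <;> norm_num
        _ = _ := one_mul _
  have hmaj : ∀ p : ℕ, p.Prime → Summable (fun k : ℕ => (p : ℝ) ^ (-b) * ((p : ℝ) ^ k) ^ (-b) *
      (if k = 0 then 0 else 1)) ∧ ∑' k : ℕ, (p : ℝ) ^ (-b) * ((p : ℝ) ^ k) ^ (-b) *
      (if k = 0 then 0 else 1) ≤ (1 - (2 : ℝ) ^ (-b))⁻¹ * (p : ℝ) ^ (-(2 * b)) := by
    intro p hp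
    have hp0 : (0 : ℝ) < p := by exact_mod_cast hp.pos
    obtain ⟨h1, h2⟩ := geom_pow hb0 hp.two_le
    have h3 : Summable (fun k : ℕ => (p : ℝ) ^ (-b) * ((p : ℝ) ^ k) ^ (-b) *
      (if k = 0 then 0 else 1)) := by
      rw [← summable_nat_add_iff 1]
      refine (h1.mul_left ((p : ℝ) ^ (-b))).congr fun k => ?_
      rw [if_neg (Nat.succ_ne_zero k), mul_one]
    refine ⟨h3, ?_⟩
    rw [h3.tsum_eq_zero_add]
    simp only [if_true, mul_zero, zero_add]
    have h4 : ∀ k : ℕ, (p : ℝ) ^ (-b) * ((p : ℝ) ^ (k + 1)) ^ (-b) * (if k + 1 = 0 then 0 else 1) =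
        (p : ℝ) ^ (-b) * ((p : ℝ) ^ (k + 1)) ^ (-b) := fun k => by
      rw [if_neg (Nat.succ_ne_zero k), mul_one]
    simp only [h4]
    rw [tsum_mul_left]
    calc _ ≤ (p : ℝ) ^ (-b) * ((1 - (2 : ℝ) ^ (-b))⁻¹ * (p : ℝ) ^ (-b)) :=
          mul_le_mul_of_nonneg_left h2 (by positivity)
      _ = (1 - (2 : ℝ) ^ (-b))⁻¹ * ((p : ℝ) ^ (-b) * (p : ℝ) ^ (-b)) := by ring
      _ = _ := by
          rw [← Real.rpow_add hp0]
          congr 2
          ring
  unfold Near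
  rw [summable_prod_of_nonneg hnn]
  have hsum : ∀ p : ℕ, Summable fun k : ℕ => (if p.Prime ∧ 0 < p then
      ‖defect (fun _ => 1) lic p (k + 1)‖ * ((p : ℝ) ^ (k + 1)) ^ (-b) else 0) := by
    intro p
    by_cases hp : p.Prime
    · exact Summable.of_nonneg_of_le (fun k => hnn (p, k)) (hrow p hp) (hmaj p hp).1
    · refine summable_zero.congr fun k => ?_
      rw [if_neg (fun h => hp h.1)]
  refine ⟨hsum, ?_⟩
  refine Summable.of_nonneg_of_le (fun p => tsum_nonneg fun k => hnn (p, k)) (fun p => ?_)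
    (summable_primes (b := 2 * b) (by linarith) (1 - (2 : ℝ) ^ (-b))⁻¹)
  by_cases hp : p.Prime
  · rw [if_pos hp]
    exact ((hsum p).tsum_le_tsum (hrow p hp) (hmaj p hp).1).trans (hmaj p hp).2
  · rw [if_neg hp]
    refine le_of_eq ?_
    have h1 : ∀ k : ℕ, (if p.Prime ∧ 0 < p then
      ‖defect (fun _ => 1) lic p (k + 1)‖ * ((p : ℝ) ^ (k + 1)) ^ (-b) else 0) = 0 := fun k => by
      rw [if_neg (fun h => hp h.1)]
    simp only [h1, tsum_zero]

end Pool.Agent.T9h59.NR
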