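import Pool.Agent.T9h59.NR.Conv

set_option autoImplicit false

/-! Multiplicative functions close to a twist of the Möbius function. -/

namespace Pool.Agent.T9h59.NR

open Finset Filter Topology
open Pool.Agent.Y853.EM (S S_zero S_add_nat muc lic)
open Pool.Agent.N375.LM

/-! ### Euler products -/

theorem euler_bound {g : ℕ → ℝ} (g1 : g 1 = 1) (hmul : ∀ {a b : ℕ}, a.Coprime b → g (a * b) = g a * g b)
    (hg : ∀ n, 0 ≤ g n) (G : ℕ → ℝ) (hs : ∀ p : ℕ, p.Prime → Summable fun k : ℕ => g (p ^ k))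
    (hG : ∀ p : ℕ, p.Prime → ∑' k : ℕ, g (p ^ (k + 1)) ≤ G p) (hG0 : ∀ p, 0 ≤ G p) (N : ℕ) :
    ∑ d ∈ Icc 1 N, g d ≤ Real.exp (∑ p ∈ range (N + 1), G p) := by
  have hs' : ∀ {p : ℕ}, p.Prime → Summable fun k : ℕ => ‖g (p ^ k)‖ := by
    intro p hp
    have h := hs p hp
    simpa only [Real.norm_of_nonneg (hg _)] using h
  obtain ⟨h1, h2⟩ := EulerProduct.summable_and_hasSum_factoredNumbers_prod_filter_prime_tsum
    g1 hmul hs' (range (N + 1))
  have h3 : ∑ d ∈ Icc 1 N, g d ≤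
      ∏ p ∈ (range (N + 1)).filter Nat.Prime, ∑' n : ℕ, g (p ^ n) := by
    have hmem : ∀ d ∈ Icc 1 N, d ∈ Nat.factoredNumbers (range (N + 1)) := by
      intro d hd
      rw [mem_Icc] at hd
      rw [Nat.mem_factoredNumbers]
      refine ⟨by omega, fun p hp => ?_⟩
      rw [mem_range]
      have := Nat.le_of_mem_primeFactorsList hp
      omega
    have h4 : ∑ d ∈ Icc 1 N, g d = ∑ d ∈ (Icc 1 N).attach,
        (fun m : Nat.factoredNumbers (range (N + 1)) => g m) ⟨d.1, hmem d.1 d.2⟩ := by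
      rw [← Finset.sum_attach]
    have h5 : ∑ d ∈ (Icc 1 N).attach,
        (fun m : Nat.factoredNumbers (range (N + 1)) => g m) ⟨d.1, hmem d.1 d.2⟩ =
        ∑ m ∈ (Icc 1 N).attach.image (fun d => (⟨d.1, hmem d.1 d.2⟩ :
          Nat.factoredNumbers (range (N + 1)))), g m := by
      rw [Finset.sum_image]
      intro a _ b _ hab
      have := congrArg Subtype.val hab
      exact Subtype.ext this
    rw [h4, h5]
    exact sum_le_hasSum _ (fun m _ => hg m) h2
  refine h3.trans ?_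
  have h4 : ∀ p ∈ (range (N + 1)).filter Nat.Prime, ∑' n : ℕ, g (p ^ n) ≤ Real.exp (G p) := by
    intro p hp
    have hp' := (mem_filter.1 hp).2
    rw [(hs p hp').tsum_eq_zero_add, pow_zero, g1]
    have := hG p hp'
    have h6 := Real.add_one_le_exp (G p)
    linarith
  refine (Finset.prod_le_prod (fun p _ => tsum_nonneg fun n => hg _) h4).trans ?_
  rw [← Real.exp_sum]
  apply Real.exp_le_exp.2
  exact Finset.sum_le_sum_of_subset_of_nonneg (Finset.filter_subset _ _) fun p _ _ => hG0 p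

/-- the weighted sizes at the prime powers -/
noncomputable def pp (h : ArithmeticFunction ℂ) (b : ℝ) (y : ℕ) (q : ℕ × ℕ) : ℝ :=
  if q.1.Prime ∧ y < q.1 then ‖h (q.1 ^ (q.2 + 1))‖ * ((q.1 : ℝ) ^ (q.2 + 1)) ^ (-b) else 0

theorem pp_nonneg (h : ArithmeticFunction ℂ) (b : ℝ) (y : ℕ) (q : ℕ × ℕ) : 0 ≤ pp h b y q := by
  unfold pp
  split_ifs
  · positivity
  · exact le_rfl

/-- `‖h n‖ n^(-b)` -/
noncomputable def gg (h : ArithmeticFunction ℂ) (b : ℝ) (n : ℕ) : ℝ := ‖h n‖ * (n : ℝ) ^ (-b)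

theorem gg_nonneg (h : ArithmeticFunction ℂ) (b : ℝ) (n : ℕ) : 0 ≤ gg h b n := by
  unfold gg; positivity

theorem gg_mul {h : ArithmeticFunction ℂ} (hm : h.IsMultiplicative) (b : ℝ) {a c : ℕ}
    (hac : a.Coprime c) : gg h b (a * c) = gg h b a * gg h b c := by
  unfold gg
  rw [hm.map_mul_of_coprime hac, norm_mul, Nat.cast_mul,
    Real.mul_rpow (Nat.cast_nonneg _) (Nat.cast_nonneg _)]
  ring

theorem gg_one {h : ArithmeticFunction ℂ} (hm : h.IsMultiplicative) (b : ℝ) : gg h b 1 = 1 := by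
  unfold gg
  rw [hm.map_one]
  simp

theorem gg_pp (h : ArithmeticFunction ℂ) (b : ℝ) (y p k : ℕ) (hp : p.Prime) (hy : y < p) :
    gg h b (p ^ (k + 1)) = pp h b y (p, k) := by
  unfold gg pp
  rw [if_pos ⟨hp, hy⟩, Nat.cast_pow]

theorem cP_isMult {h : ArithmeticFunction ℂ} (hm : h.IsMultiplicative) (P : ℕ) :
    (cP P h).IsMultiplicative := by
  refine ⟨by rw [cP_one, hm.map_one], fun {a c} hac => ?_⟩
  rw [cP_apply, cP_apply, cP_apply, hm.map_mul_of_coprime hac]
  by_cases h1 : a.Coprime P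
  · by_cases h2 : c.Coprime P
    · rw [if_pos h1, if_pos h2, if_pos (Nat.Coprime.mul_left h1 h2)]
    · rw [if_neg h2, if_neg (fun h3 => h2 (Nat.Coprime.coprime_mul_left h3)), mul_zero]
  · rw [if_neg h1, if_neg (fun h3 => h1 (Nat.Coprime.coprime_mul_right h3)), zero_mul]

theorem near_all {h : ArithmeticFunction ℂ} (hm : h.IsMultiplicative) {b : ℝ}
    (hs : Summable (pp h b 0)) : ∃ K : ℝ, NB (fun n => h n) b K := by
  obtain ⟨h1, h2⟩ := (summable_prod_of_nonneg (pp_nonneg h b 0)).1 hs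
  refine ⟨Real.exp (∑' p : ℕ, ∑' k : ℕ, pp h b 0 (p, k)), fun N => ?_⟩
  have h3 := euler_bound (gg_one hm b) (fun {a c} => gg_mul hm b) (gg_nonneg h b)
    (fun p => ∑' k : ℕ, pp h b 0 (p, k)) (fun p hp => by
      rw [← summable_nat_add_iff 1]
      exact (h1 p).congr fun k => (gg_pp h b 0 p k hp hp.pos).symm) (fun p hp => by
      refine le_of_eq (tsum_congr fun k => ?_)
      exact gg_pp h b 0 p k hp hp.pos)
    (fun p => tsum_nonneg fun k => pp_nonneg h b 0 _) N
  refine h3.trans (Real.exp_le_exp.2 ?_)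
  exact h2.sum_le_tsum _ fun p _ => tsum_nonneg fun k => pp_nonneg h b 0 _

theorem near_small {h : ArithmeticFunction ℂ} (hm : h.IsMultiplicative) {b : ℝ} (y : ℕ)
    (hs : Summable (pp h b y)) (m : ℕ) (hm0 : 0 < m) : ∃ P : ℕ, 0 < P ∧ m ∣ P ∧
      ∀ N : ℕ, ∑ d ∈ Icc 2 N, ‖cP P h d‖ * (d : ℝ) ^ (-b) ≤ 1 / 2 := by
  obtain ⟨h1, h2⟩ := (summable_prod_of_nonneg (pp_nonneg h b y)).1 hs
  set G : ℕ → ℝ := fun p => ∑' k : ℕ, pp h b y (p, k) with hG
  have hG0 : ∀ p, 0 ≤ G p := fun p => tsum_nonneg fun k => pp_nonneg h b y _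
  have hlog : 0 < Real.log (3 / 2) := Real.log_pos (by norm_num)
  obtain ⟨z, hz⟩ : ∃ z : ℕ, ∑' n : ℕ, G (n + z) < Real.log (3 / 2) := by
    have h3 := tendsto_sum_nat_add G
    exact ((h3.eventually (gt_mem_nhds hlog)).exists)
  set Y := max y z with hY
  refine ⟨m * Y.factorial, Nat.mul_pos hm0 (Nat.factorial_pos _), Dvd.intro _ rfl, fun N => ?_⟩
  set P := m * Y.factorial with hP
  have hbig : ∀ p : ℕ, p.Prime → ¬ p ∣ P → Y < p := by
    intro p hp hd
    by_contra h3
    apply hd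
    exact ((Nat.Prime.dvd_factorial hp).2 (not_lt.1 h3)).trans (Dvd.intro_left _ rfl)
  have hcp := cP_isMult hm P
  have hzero : ∀ p : ℕ, p.Prime → p ∣ P → ∀ k : ℕ, gg (cP P h) b (p ^ (k + 1)) = 0 := by
    intro p hp hd k
    unfold gg
    rw [cP_apply, if_neg, norm_zero, zero_mul]
    intro h3
    have h4 : p.Coprime P := Nat.Coprime.coprime_dvd_left (dvd_pow_self p (Nat.succ_ne_zero k)) h3
    exact (Nat.Prime.coprime_iff_not_dvd hp).1 h4 hd
  have hcop : ∀ p : ℕ, p.Prime → ¬ p ∣ P → ∀ k : ℕ, gg (cP P h) b (p ^ (k + 1)) = pp h b y (p, k) := by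
    intro p hp hd k
    rw [← gg_pp h b y p k hp (lt_of_le_of_lt (le_max_left _ _) (hbig p hp hd))]
    unfold gg
    rw [cP_apply, if_pos (Nat.Coprime.pow_left _ ((Nat.Prime.coprime_iff_not_dvd hp).2 hd))]
  have h3 := euler_bound (gg_one hcp b) (fun {a c} => gg_mul hcp b) (gg_nonneg (cP P h) b)
    (fun p => if p.Prime ∧ ¬ p ∣ P then G p else 0) (fun p hp => by
      rw [← summable_nat_add_iff 1]
      by_cases hd : p ∣ P
      · exact summable_zero.congr fun k => (hzero p hp hd k).symm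
      · exact (h1 p).congr fun k => (hcop p hp hd k).symm) (fun p hp => by
      by_cases hd : p ∣ P
      · rw [if_neg (fun h => h.2 hd)]
        simp only [hzero p hp hd, tsum_zero]
        exact le_rfl
      · rw [if_pos ⟨hp, hd⟩]
        exact le_of_eq (tsum_congr fun k => hcop p hp hd k)) (fun p => by
      split_ifs
      · exact hG0 p
      · exact le_rfl) N
  have h4 : ∑ p ∈ range (N + 1), (if p.Prime ∧ ¬ p ∣ P then G p else 0) ≤ Real.log (3 / 2) := by
    refine le_trans ?_ hz.le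
    have h5 : ∑ p ∈ range (N + 1), (if p.Prime ∧ ¬ p ∣ P then G p else 0) ≤
        ∑ n ∈ range (N + 1), G (n + z) := by
      rw [← Finset.sum_filter]
      have h6 : ∑ p ∈ (range (N + 1)).filter (fun p => p.Prime ∧ ¬ p ∣ P), G p =
          ∑ n ∈ ((range (N + 1)).filter (fun p => p.Prime ∧ ¬ p ∣ P)).image (fun p => p - z),
            G (n + z) := by
        rw [Finset.sum_image]
        · refine Finset.sum_congr rfl fun p hp => ?_
          rw [mem_filter] at hp
          have := hbig p hp.2.1 hp.2.2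
          rw [Nat.sub_add_cancel (by omega)]
        · intro a ha c hc hac
          simp only [coe_filter, mem_range, Set.mem_ofPred_eq] at ha hc
          have h7 := hbig a ha.2.1 ha.2.2
          have h8 := hbig c hc.2.1 hc.2.2
          simp only at hac
          omega
      rw [h6]
      apply Finset.sum_le_sum_of_subset_of_nonneg
      · intro n hn
        rw [mem_image] at hn
        obtain ⟨p, hp, rfl⟩ := hn
        rw [mem_filter, mem_range] at hp
        rw [mem_range]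
        omega
      · intro n _ _
        exact hG0 _
    exact h5.trans (((summable_nat_add_iff z).2 h2).sum_le_tsum _ fun n _ => hG0 _)
  have h5 : ∑ d ∈ Icc 1 N, gg (cP P h) b d ≤ 3 / 2 := by
    refine h3.trans ?_
    rw [← Real.exp_log (show (0 : ℝ) < 3 / 2 by norm_num)]
    exact Real.exp_le_exp.2 h4
  rcases Nat.eq_zero_or_pos N with rfl | hN
  · simp
  have h6 : Icc 1 N = insert 1 (Icc 2 N) := by
    ext d
    simp only [mem_Icc, mem_insert]
    omega
  rw [h6, Finset.sum_insert (by simp), gg_one hcp] at h5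
  have h7 : ∑ d ∈ Icc 2 N, gg (cP P h) b d = ∑ d ∈ Icc 2 N, ‖cP P h d‖ * (d : ℝ) ^ (-b) := rfl
  rw [h7] at h5
  linarith

/-! ### the twists -/

/-- `χ(n) n^(it)` -/
noncomputable def tw {m : ℕ} (χ : DirichletCharacter ℂ m) (t : ℝ) : ArithmeticFunction ℂ :=
  ⟨fun n => if n = 0 then 0 else χ (n : ZMod m) * (n : ℂ) ^ ((t : ℂ) * Complex.I), by simp⟩

theorem tw_apply {m : ℕ} (χ : DirichletCharacter ℂ m) (t : ℝ) {n : ℕ} (hn : n ≠ 0) :
    tw χ t n = χ (n : ZMod m) * (n : ℂ) ^ ((t : ℂ) * Complex.I) := by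
  change (if n = 0 then (0 : ℂ) else _) = _
  rw [if_neg hn]

theorem tw_mul {m : ℕ} (χ : DirichletCharacter ℂ m) (t : ℝ) (a b : ℕ) :
    tw χ t (a * b) = tw χ t a * tw χ t b := by
  rcases Nat.eq_zero_or_pos a with rfl | ha
  · simp
  rcases Nat.eq_zero_or_pos b with rfl | hb
  · simp
  rw [tw_apply χ t ha.ne', tw_apply χ t hb.ne', tw_apply χ t (Nat.mul_pos ha hb).ne']
  push_cast
  rw [map_mul, Complex.natCast_mul_natCast_cpow]
  ring

theorem tw_one {m : ℕ} (χ : DirichletCharacter ℂ m) (t : ℝ) : tw χ t 1 = 1 := by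
  rw [tw_apply χ t one_ne_zero]
  simp

theorem tw_isMult {m : ℕ} (χ : DirichletCharacter ℂ m) (t : ℝ) : (tw χ t).IsMultiplicative :=
  ⟨tw_one χ t, fun {a b} _ => tw_mul χ t a b⟩

theorem tw_pow {m : ℕ} (χ : DirichletCharacter ℂ m) (t : ℝ) (p k : ℕ) :
    tw χ t (p ^ k) = tw χ t p ^ k := by
  induction k with
  | zero => simp [tw_one]
  | succ k ih => rw [pow_succ, tw_mul, ih, pow_succ]

/-- `μ(n) χ(n) n^(it)` -/
noncomputable def muT {m : ℕ} (χ : DirichletCharacter ℂ m) (t : ℝ) : ArithmeticFunction ℂ :=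
  ⟨fun n => muc n * tw χ t n, by simp⟩

theorem muT_apply {m : ℕ} (χ : DirichletCharacter ℂ m) (t : ℝ) (n : ℕ) :
    muT χ t n = muc n * tw χ t n := rfl

theorem muT_mul {m : ℕ} (χ : DirichletCharacter ℂ m) (t : ℝ) : muT χ t * tw χ t = 1 := by
  ext n
  rw [ArithmeticFunction.mul_apply]
  have h1 : ∑ p ∈ n.divisorsAntidiagonal, muT χ t p.1 * tw χ t p.2 =
      (∑ p ∈ n.divisorsAntidiagonal, muc p.1) * tw χ t n := by
    rw [Finset.sum_mul]
    refine Finset.sum_congr rfl fun p hp => ?_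
    rw [muT_apply, mul_assoc, ← tw_mul, (Nat.mem_divisorsAntidiagonal.1 hp).1]
  rw [h1]
  have h2 : ∑ p ∈ n.divisorsAntidiagonal, muc p.1 = (1 : ArithmeticFunction ℂ) n := by
    rw [← ArithmeticFunction.coe_moebius_mul_coe_zeta, ArithmeticFunction.mul_apply]
    refine Finset.sum_congr rfl fun p hp => ?_
    have h3 : p.2 ≠ 0 := by
      have := Nat.mem_divisorsAntidiagonal.1 hp
      rintro h
      rw [h, mul_zero] at this
      exact this.2 this.1.symm
    rw [ArithmeticFunction.intCoe_apply, ArithmeticFunction.natCoe_apply,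
      ArithmeticFunction.zeta_apply, if_neg h3]
    simp [muc]
  rw [h2]
  by_cases hn : n = 1
  · subst hn
    rw [tw_one, mul_one]
  · rw [ArithmeticFunction.one_apply_ne hn, zero_mul]

theorem f_eq {m : ℕ} (χ : DirichletCharacter ℂ m) (t : ℝ) (f : ArithmeticFunction ℂ) :
    f = muT χ t * (f * tw χ t) := by
  rw [mul_comm f, ← mul_assoc, muT_mul, one_mul]

theorem norm_cpow_it (n : ℕ) (hn : n ≠ 0) (t : ℝ) : ‖(n : ℂ) ^ ((t : ℂ) * Complex.I)‖ = 1 := by
  rw [Complex.norm_natCast_cpow_of_pos (Nat.pos_of_ne_zero hn)]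
  simp

/-- `n^(it)`, with value `1` at `0` -/
noncomputable def vt (t : ℝ) (n : ℕ) : ℂ := Complex.exp (Complex.I * ((t * Real.log n : ℝ) : ℂ))

theorem vt_eq (t : ℝ) {n : ℕ} (hn : n ≠ 0) : (n : ℂ) ^ ((t : ℂ) * Complex.I) = vt t n := by
  have h0 : (n : ℂ) ≠ 0 := by exact_mod_cast hn
  rw [Complex.cpow_def_of_ne_zero h0, ← Complex.natCast_log, vt]
  congr 1
  push_cast
  ring

theorem vt_norm (t : ℝ) (n : ℕ) : ‖vt t n‖ = 1 := by
  unfold vt
  rw [mul_comm]
  exact Complex.norm_exp_ofReal_mul_I _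

theorem vt_inv (t : ℝ) (n : ℕ) : vt (-t) n * vt t n = 1 := by
  unfold vt
  rw [← Complex.exp_add, ← Complex.exp_zero]
  congr 1
  push_cast
  ring

theorem vt_slow (t : ℝ) (n : ℕ) (hn : 1 ≤ n) : ‖vt t (n + 1) - vt t n‖ ≤ |t| / n := by
  have hn0 : (0 : ℝ) < n := by exact_mod_cast hn
  have h1 : vt t (n + 1) - vt t n = vt t n *
      (Complex.exp (Complex.I * ((t * Real.log (n + 1 : ℕ) - t * Real.log n : ℝ) : ℂ)) - 1) := by
    unfold vt
    rw [mul_sub, mul_one, ← Complex.exp_add]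
    congr 2
    push_cast
    ring
  rw [h1, norm_mul, vt_norm, one_mul]
  refine (Real.norm_exp_I_mul_ofReal_sub_one_le).trans ?_
  rw [Real.norm_eq_abs, ← mul_sub, abs_mul]
  have h2 : |Real.log ((n + 1 : ℕ) : ℝ) - Real.log n| ≤ 1 / n := by
    rw [← Real.log_div (by positivity) hn0.ne']
    have h3 : ((n + 1 : ℕ) : ℝ) / n = 1 + 1 / n := by
      push_cast
      field_simp
    rw [h3, abs_of_nonneg (Real.log_nonneg (by
      have : 0 ≤ 1 / (n : ℝ) := by positivity
      linarith))]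
    have h4 := Real.log_le_sub_one_of_pos (show (0 : ℝ) < 1 + 1 / n by positivity)
    linarith
  calc |t| * |Real.log ((n + 1 : ℕ) : ℝ) - Real.log n| ≤ |t| * (1 / n) :=
        mul_le_mul_of_nonneg_left h2 (abs_nonneg t)
    _ = |t| / n := by ring

theorem UB_vt {c : ℕ → ℂ} {b : ℝ} (hb : 0 < b) (t : ℝ) (h : UB c b) :
    UB (fun n => vt t n * c n) b :=
  UB_slow hb (vt t) |t| (abs_nonneg t) (fun n => (vt_norm t n).le) (vt_slow t) h

/-- from the sums with the coefficients `f` to those with the coefficients `μ` -/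
theorem UB_mu_of_near {m : ℕ} (hm0 : 0 < m) (χ : DirichletCharacter ℂ m) (t : ℝ)
    {f : ArithmeticFunction ℂ} (hf : f.IsMultiplicative) {b : ℝ} (hb : 0 < b) (y : ℕ)
    (hs : Summable (pp (f * tw χ t) b y)) (h : UB (fun n => f n) b) : UB muc b := by
  obtain ⟨P, hP, hmP, hsm⟩ := near_small (hf.mul (tw_isMult χ t)) y hs m hm0
  have : NeZero P := ⟨hP.ne'⟩
  -- the part prime to `P`
  have h1 : UB (fun n => cP P f n) b := by
    classical
    have h2 := S_weight (P := P) (fun u => if IsUnit u then 1 else 0) _ h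
    have h3 : (fun n : ℕ => (if IsUnit (n : ZMod P) then (1 : ℂ) else 0) * f n) =
        fun n => cP P f n := by
      funext n
      rw [cP_apply]
      by_cases h4 : n.Coprime P
      · rw [if_pos h4, if_pos ((ZMod.isUnit_iff_coprime n P).2 h4), one_mul]
      · rw [if_neg h4, if_neg (fun h5 => h4 ((ZMod.isUnit_iff_coprime n P).1 h5)), zero_mul]
    rwa [h3] at h2
  have h2 : cP P f = cP P (muT χ t) * cP P (f * tw χ t) := by
    conv_lhs => rw [f_eq χ t f, cP_mul]
  rw [h2] at h1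
  have h3 := UB_of_mul hb (by norm_num) (by
    rw [cP_one]
    exact (hf.mul (tw_isMult χ t)).map_one) hsm h1
  have h4 := UB_vt hb (-t) h3
  -- a weight modulo `P`
  classical
  have h5 : UnitWeight P (fun u : ZMod P => if IsUnit u then χ (ZMod.castHom hmP (ZMod m) u) else 0) := by
    intro u
    beta_reduce
    by_cases hu : IsUnit u
    · rw [if_pos hu]
      exact ⟨fun _ => hu, fun _ => ((hu.map (ZMod.castHom hmP (ZMod m))).map χ).ne_zero⟩
    · rw [if_neg hu]
      exact ⟨fun h => absurd rfl h, fun h => absurd h hu⟩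
  rw [UB_mu hP h5 hb]
  have h6 : (fun n : ℕ => (if IsUnit (n : ZMod P) then χ (ZMod.castHom hmP (ZMod m) (n : ZMod P)) else 0) *
      muc n) = fun n => vt (-t) n * cP P (muT χ t) n := by
    funext n
    rw [cP_apply]
    by_cases h7 : n.Coprime P
    · rw [if_pos h7, if_pos ((ZMod.isUnit_iff_coprime n P).2 h7), muT_apply]
      rcases Nat.eq_zero_or_pos n with rfl | hn
      · simp [muc]
      · rw [tw_apply χ t hn.ne', vt_eq t hn.ne', map_natCast]
        calc _ = χ (n : ZMod m) * muc n * 1 := by ring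
          _ = χ (n : ZMod m) * muc n * (vt (-t) n * vt t n) := by rw [vt_inv]
          _ = _ := by ring
    · rw [if_neg h7, if_neg (fun h8 => h7 ((ZMod.isUnit_iff_coprime n P).1 h8)), zero_mul, mul_zero]
  rw [h6]
  exact h4

/-- the converse -/
theorem UB_of_near {m : ℕ} (hm0 : 0 < m) (χ : DirichletCharacter ℂ m) (t : ℝ)
    {f : ArithmeticFunction ℂ} (hf : f.IsMultiplicative) {b : ℝ} (hb : 0 < b)
    (hs : Summable (pp (f * tw χ t) b 0)) (h : UB muc b) : UB (fun n => f n) b := by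
  have : NeZero m := ⟨hm0.ne'⟩
  obtain ⟨K, hK⟩ := near_all (hf.mul (tw_isMult χ t)) hs
  have h1 : UB (fun n => muT χ t n) b := by
    have h2 := UB_vt hb t (S_weight (P := m) (fun u => χ u) _ h)
    have h3 : (fun n : ℕ => vt t n * (χ (n : ZMod m) * muc n)) = fun n => muT χ t n := by
      funext n
      rw [muT_apply]
      rcases Nat.eq_zero_or_pos n with rfl | hn
      · simp [muc]
      · rw [tw_apply χ t hn.ne', vt_eq t hn.ne']
        ring
    rwa [h3] at h2
  have h2 := UB_mul hb hK h1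
  rwa [← f_eq χ t f] at h2

end Pool.Agent.T9h59.NR
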